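import Pool.Agent.E8helper19.LC.Stm

/-!
# Piece FUND of project LC: the Green function is a fundamental solution
-/

set_option autoImplicit false
open MeasureTheory Filter Topology Set Laplacian FourierTransform
open scoped ContDiff Real SchwartzMap RealInnerProductSpace

namespace Pool.Agent.E8helper9.LC

open Pool.Agent.E8helper19.LC

noncomputable section

theorem finrank_P : Module.finrank ℝ P = 2 := by
  simp [P]

/-- the integrand of the Green function -/
def gg (μ : ℝ) (y : P) (z : P × ℝ) : ℝ :=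
  (4 * π * z.2)⁻¹ * Real.exp (-(‖z.1 - y‖ ^ 2 / (4 * z.2) + μ ^ 2 * z.2))

theorem gg_meas (μ : ℝ) (y : P) : Measurable (gg μ y) := by
  unfold gg
  fun_prop

theorem gg_nonneg (μ : ℝ) (y : P) (x : P) (t : ℝ) (ht : 0 < t) : 0 ≤ gg μ y (x, t) := by
  unfold gg
  positivity

theorem int_heat (t : ℝ) (ht : 0 < t) :
    ∫ x : P, Real.exp (-(‖x‖ ^ 2 / (4 * t))) = 4 * π * t := by
  have h := GaussianFourier.integral_rexp_neg_mul_sq_norm (V := P) (b := 1 / (4 * t))
    (by positivity)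
  rw [finrank_P] at h
  have h2 : ((2 : ℕ) : ℝ) / 2 = 1 := by norm_num
  rw [h2, Real.rpow_one] at h
  have h3 : π / (1 / (4 * t)) = 4 * π * t := by field_simp
  rw [h3] at h
  rw [← h]
  congr 1
  ext x
  congr 1
  ring

theorem int_gg (μ : ℝ) (y : P) (t : ℝ) (ht : 0 < t) :
    ∫ x : P, gg μ y (x, t) = Real.exp (-(μ ^ 2 * t)) := by
  have h1 : ∀ x : P, gg μ y (x, t) = ((4 * π * t)⁻¹ * Real.exp (-(μ ^ 2 * t))) *
      Real.exp (-(‖x - y‖ ^ 2 / (4 * t))) := by
    intro x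
    unfold gg
    simp only
    rw [neg_add, Real.exp_add]
    ring
  simp_rw [h1]
  rw [integral_const_mul, integral_sub_right_eq_self (fun x : P => Real.exp (-(‖x‖ ^ 2 / (4 * t)))),
    int_heat t ht]
  have : 4 * π * t ≠ 0 := by positivity
  field_simp

theorem integrable_gg_slice (μ : ℝ) (y : P) (t : ℝ) (ht : 0 < t) :
    Integrable (fun x : P => gg μ y (x, t)) := by
  by_contra hcon
  have h := int_gg μ y t ht
  rw [integral_undef hcon] at h
  exact (Real.exp_pos _).ne h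

theorem integrable_gg (μ : ℝ) (hμ : 0 < μ) (y : P) :
    Integrable (gg μ y) ((volume : Measure P).prod (volume.restrict (Ioi (0 : ℝ)))) := by
  rw [integrable_prod_iff' (gg_meas μ y).aestronglyMeasurable]
  constructor
  · rw [ae_restrict_iff' measurableSet_Ioi]
    exact Eventually.of_forall fun t ht => integrable_gg_slice μ y t ht
  · have h1 : IntegrableOn (fun t : ℝ => Real.exp (-(μ ^ 2 * t))) (Ioi 0) := by
      have := integrableOn_exp_mul_Ioi (a := -(μ ^ 2)) (by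
        have : 0 < μ ^ 2 := by positivity
        linarith) 0
      refine this.congr_fun (fun t _ => ?_) measurableSet_Ioi
      simp only
      congr 1
      ring
    refine h1.congr_fun (fun t ht => ?_) measurableSet_Ioi
    simp only
    rw [← int_gg μ y t ht]
    congr 1
    ext x
    rw [Real.norm_of_nonneg (gg_nonneg μ y x t ht)]

theorem Gk_eq (μ : ℝ) (y x : P) : Gk μ ‖x - y‖ = ∫ t in Ioi (0 : ℝ), gg μ y (x, t) := rfl

theorem integrable_Gk (μ : ℝ) (hμ : 0 < μ) (y : P) : Integrable (fun x : P => Gk μ ‖x - y‖) := by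
  have := (integrable_gg μ hμ y).integral_prod_left
  exact this

/-- the Fourier transform of the Gaussian -/
theorem fourier_gauss (y x : P) (t : ℝ) (ht : 0 < t) :
    𝓕 (fun v : P => Complex.exp (-((4 * π ^ 2 * t : ℝ) : ℂ) * ‖v‖ ^ 2 +
      2 * π * Complex.I * ⟪y, v⟫)) x =
    (((4 * π * t)⁻¹ * Real.exp (-(‖x - y‖ ^ 2 / (4 * t))) : ℝ) : ℂ) := by
  have hb : (0 : ℝ) < ((4 * π ^ 2 * t : ℝ) : ℂ).re := by
    rw [Complex.ofReal_re]; positivity
  rw [fourier_gaussian_innerProductSpace' hb y x, finrank_P]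
  have h2 : (((2 : ℕ) : ℂ)) / 2 = 1 := by norm_num
  rw [h2, Complex.cpow_one]
  have hπ : (π : ℂ) ≠ 0 := by exact_mod_cast Real.pi_ne_zero
  have ht' : (t : ℂ) ≠ 0 := by exact_mod_cast ht.ne'
  push_cast
  congr 1
  · field_simp
  · congr 1
    rw [norm_sub_rev]
    field_simp

/-- `-Δφ + μ²φ` -/
def psi (μ : ℝ) (φ : 𝓢(P, ℂ)) : 𝓢(P, ℂ) := -(Δ φ) + ((μ ^ 2 : ℝ) : ℂ) • φ

theorem psi_apply (μ : ℝ) (φ : 𝓢(P, ℂ)) (x : P) :
    psi μ φ x = -(Laplacian.laplacian (φ : P → ℂ) x) + ((μ ^ 2 : ℝ) : ℂ) * φ x := by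
  simp [psi, SchwartzMap.laplacian_apply]

theorem fourier_psi (μ : ℝ) (φ : 𝓢(P, ℂ)) (ξ : P) :
    𝓕 (psi μ φ) ξ = ((4 * π ^ 2 * ‖ξ‖ ^ 2 + μ ^ 2 : ℝ) : ℂ) * 𝓕 φ ξ := by
  have h1 : 𝓕 (Δ φ) ξ = -((4 * π ^ 2 * ‖ξ‖ ^ 2 : ℝ) : ℂ) * 𝓕 φ ξ := by
    rw [SchwartzMap.laplacian_eq_fourierMultiplierCLM, FourierTransform.fourier_smul,
      SchwartzMap.fourierMultiplierCLM_apply, FourierTransform.fourier_fourierInv_eq,
      smul_apply, SchwartzMap.smulLeftCLM_apply_apply (by fun_prop)]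
    simp
    ring
  rw [psi, FourierTransform.fourier_add, FourierTransform.fourier_smul, FourierTransform.fourier_neg,
    add_apply, neg_apply, smul_apply, h1]
  simp
  ring

/-- the function `e^(2πi⟨y,ξ⟩ - 4π²t|ξ|²)` -/
def ee (y : P) (t : ℝ) (v : P) : ℂ :=
  Complex.exp (-((4 * π ^ 2 * t : ℝ) : ℂ) * ‖v‖ ^ 2 + 2 * π * Complex.I * ⟪y, v⟫)

theorem flip_gauss (y : P) (t : ℝ) (ht : 0 < t) (ψ : 𝓢(P, ℂ)) :
    ∫ x : P, (((4 * π * t)⁻¹ * Real.exp (-(‖x - y‖ ^ 2 / (4 * t))) : ℝ) : ℂ) * ψ x =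
      ∫ ξ : P, ee y t ξ * 𝓕 ψ ξ := by
  have hb : (0 : ℝ) < ((4 * π ^ 2 * t : ℝ) : ℂ).re := by
    rw [Complex.ofReal_re]; positivity
  have J : Integrable (ee y t) :=
    GaussianFourier.integrable_cexp_neg_mul_sq_norm_add hb _ _
  have h := VectorFourier.integral_fourierIntegral_smul_eq_flip (L := innerₗ P)
      Real.continuous_fourierChar continuous_inner J (ψ.integrable (μ := volume))
  rw [flip_innerₗ] at h
  have h1 : ∀ x : P, (((4 * π * t)⁻¹ * Real.exp (-(‖x - y‖ ^ 2 / (4 * t))) : ℝ) : ℂ) =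
      VectorFourier.fourierIntegral Real.fourierChar volume (innerₗ P) (ee y t) x := by
    intro x
    rw [← fourier_gauss y x t ht]
    rfl
  simp_rw [h1]
  exact h

theorem inv_four (φ : 𝓢(P, ℂ)) (y : P) :
    ∫ ξ : P, Complex.exp (2 * π * Complex.I * ⟪y, ξ⟫) * 𝓕 φ ξ = φ y := by
  have h : 𝓕⁻ (𝓕 φ) = φ := FourierTransform.fourierInv_fourier_eq φ
  conv_rhs => rw [← h]
  rw [SchwartzMap.fourierInv_coe, Real.fourierInv_eq']
  congr 1
  ext ξ
  rw [smul_eq_mul, real_inner_comm]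
  congr 2
  push_cast
  ring

theorem main_id (μ : ℝ) (hμ : 0 < μ) (φ : 𝓢(P, ℂ)) (y : P) :
    ∫ x, ((Gk μ ‖x - y‖ : ℝ) : ℂ) * psi μ φ x = φ y := by
  obtain ⟨C, hC⟩ : ∃ C : ℝ, ∀ x, ‖psi μ φ x‖ ≤ C := by
    obtain ⟨C, -, hC⟩ := (psi μ φ).decay 0 0
    exact ⟨C, fun x => by simpa using hC x⟩
  -- first exchange
  have hint1 : Integrable (Function.uncurry fun (x : P) (t : ℝ) =>
      ((gg μ y (x, t) : ℝ) : ℂ) * psi μ φ x)
      ((volume : Measure P).prod (volume.restrict (Ioi (0 : ℝ)))) := by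
    refine Integrable.mono' ((integrable_gg μ hμ y).norm.mul_const C) ?_ ?_
    · have h1 : Measurable (fun z : P × ℝ => ((gg μ y z : ℝ) : ℂ)) :=
        Complex.measurable_ofReal.comp (gg_meas μ y)
      have h2 : Measurable (fun z : P × ℝ => psi μ φ z.1) :=
        (psi μ φ).continuous.measurable.comp measurable_fst
      exact (h1.mul h2).aestronglyMeasurable
    · refine Eventually.of_forall fun z => ?_
      simp only [Function.uncurry]
      rw [norm_mul, Complex.norm_real]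
      exact mul_le_mul_of_nonneg_left (hC z.1) (norm_nonneg _)
  have hc : ∀ ξ : P, 0 < 4 * π ^ 2 * ‖ξ‖ ^ 2 + μ ^ 2 := fun ξ => by positivity
  -- second exchange
  have hint2 : Integrable (Function.uncurry fun (ξ : P) (t : ℝ) =>
      ((Real.exp (-((4 * π ^ 2 * ‖ξ‖ ^ 2 + μ ^ 2) * t)) : ℝ) : ℂ) *
        (((4 * π ^ 2 * ‖ξ‖ ^ 2 + μ ^ 2 : ℝ) : ℂ) *
          (Complex.exp (2 * π * Complex.I * ⟪y, ξ⟫) * 𝓕 φ ξ)))
      ((volume : Measure P).prod (volume.restrict (Ioi (0 : ℝ)))) := by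
    rw [integrable_prod_iff]
    · constructor
      · refine Eventually.of_forall fun ξ => ?_
        simp only [Function.uncurry]
        apply Integrable.mul_const
        apply Integrable.ofReal
        have := integrableOn_exp_mul_Ioi (a := -(4 * π ^ 2 * ‖ξ‖ ^ 2 + μ ^ 2)) (by
          have := hc ξ; linarith) 0
        refine this.congr_fun (fun t _ => ?_) measurableSet_Ioi
        simp only
        congr 1
        ring
      · have h0 : Integrable (fun ξ : P => ‖𝓕 φ ξ‖) := (𝓕 φ).integrable.norm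
        refine h0.congr (Eventually.of_forall fun ξ => ?_)
        simp only [Function.uncurry, norm_mul, Complex.norm_real]
        rw [integral_mul_const]
        have h1 : ∫ t in Ioi (0 : ℝ), ‖Real.exp (-((4 * π ^ 2 * ‖ξ‖ ^ 2 + μ ^ 2) * t))‖ =
            (4 * π ^ 2 * ‖ξ‖ ^ 2 + μ ^ 2)⁻¹ := by
          have h2 := integral_exp_mul_Ioi (a := -(4 * π ^ 2 * ‖ξ‖ ^ 2 + μ ^ 2)) (by
            have := hc ξ; linarith) 0
          rw [mul_zero, Real.exp_zero, neg_div_neg_eq, one_div] at h2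
          rw [← h2]
          apply setIntegral_congr_fun measurableSet_Ioi
          intro t _
          simp only
          rw [Real.norm_of_nonneg (Real.exp_pos _).le]
          congr 1
          ring
        rw [h1, Real.norm_of_nonneg (hc ξ).le]
        have h3 : ‖Complex.exp (2 * π * Complex.I * ⟪y, ξ⟫)‖ = 1 := by
          rw [Complex.norm_exp]
          simp
        rw [h3]
        have := (hc ξ).ne'
        field_simp
    · apply Measurable.aestronglyMeasurable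
      have h2 : Measurable (fun z : P × ℝ => 𝓕 φ z.1) :=
        (𝓕 φ).continuous.measurable.comp measurable_fst
      simp only [Function.uncurry_def]
      apply Measurable.mul
      · fun_prop
      · apply Measurable.mul
        · fun_prop
        · apply Measurable.mul _ h2
          fun_prop
  calc ∫ x, ((Gk μ ‖x - y‖ : ℝ) : ℂ) * psi μ φ x
      = ∫ x, ∫ t in Ioi (0 : ℝ), ((gg μ y (x, t) : ℝ) : ℂ) * psi μ φ x := by
        congr 1
        ext x
        rw [integral_mul_const, integral_complex_ofReal, Gk_eq]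
    _ = ∫ t in Ioi (0 : ℝ), ∫ x, ((gg μ y (x, t) : ℝ) : ℂ) * psi μ φ x :=
        integral_integral_swap hint1
    _ = ∫ t in Ioi (0 : ℝ), ∫ ξ, ((Real.exp (-((4 * π ^ 2 * ‖ξ‖ ^ 2 + μ ^ 2) * t)) : ℝ) : ℂ) *
        (((4 * π ^ 2 * ‖ξ‖ ^ 2 + μ ^ 2 : ℝ) : ℂ) *
          (Complex.exp (2 * π * Complex.I * ⟪y, ξ⟫) * 𝓕 φ ξ)) := by
        apply setIntegral_congr_fun measurableSet_Ioi
        intro t ht
        simp only
        have h1 : ∀ x, ((gg μ y (x, t) : ℝ) : ℂ) * psi μ φ x =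
            (Real.exp (-(μ ^ 2 * t)) : ℂ) *
              ((((4 * π * t)⁻¹ * Real.exp (-(‖x - y‖ ^ 2 / (4 * t))) : ℝ) : ℂ) *
                psi μ φ x) := by
          intro x
          unfold gg
          simp only
          rw [neg_add, Real.exp_add]
          push_cast
          ring
        simp_rw [h1]
        rw [integral_const_mul, flip_gauss y t ht, ← integral_const_mul]
        congr 1
        ext ξ
        rw [fourier_psi, ee, Complex.exp_add]
        have h2 : ((Real.exp (-((4 * π ^ 2 * ‖ξ‖ ^ 2 + μ ^ 2) * t)) : ℝ) : ℂ) =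
            (Real.exp (-(μ ^ 2 * t)) : ℂ) *
              Complex.exp (-((4 * π ^ 2 * t : ℝ) : ℂ) * ‖ξ‖ ^ 2) := by
          push_cast
          rw [← Complex.exp_add]
          congr 1
          ring
        rw [h2]
        ring
    _ = ∫ ξ, ∫ t in Ioi (0 : ℝ), ((Real.exp (-((4 * π ^ 2 * ‖ξ‖ ^ 2 + μ ^ 2) * t)) : ℝ) : ℂ) *
        (((4 * π ^ 2 * ‖ξ‖ ^ 2 + μ ^ 2 : ℝ) : ℂ) *
          (Complex.exp (2 * π * Complex.I * ⟪y, ξ⟫) * 𝓕 φ ξ)) :=
        (integral_integral_swap hint2).symm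
    _ = ∫ ξ : P, Complex.exp (2 * π * Complex.I * ⟪y, ξ⟫) * 𝓕 φ ξ := by
        congr 1
        ext ξ
        rw [integral_mul_const, integral_complex_ofReal]
        have h1 : ∫ t in Ioi (0 : ℝ), Real.exp (-((4 * π ^ 2 * ‖ξ‖ ^ 2 + μ ^ 2) * t)) =
            (4 * π ^ 2 * ‖ξ‖ ^ 2 + μ ^ 2)⁻¹ := by
          have h2 := integral_exp_mul_Ioi (a := -(4 * π ^ 2 * ‖ξ‖ ^ 2 + μ ^ 2)) (by
            have := hc ξ; linarith) 0
          rw [mul_zero, Real.exp_zero, neg_div_neg_eq, one_div] at h2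
          rw [← h2]
          apply setIntegral_congr_fun measurableSet_Ioi
          intro t _
          simp only
          congr 1
          ring
        rw [h1, ← mul_assoc, ← Complex.ofReal_mul, inv_mul_cancel₀ (hc ξ).ne', Complex.ofReal_one,
          one_mul]
    _ = φ y := inv_four φ y

theorem t_FUND : S_FUND := by
  intro μ hμ
  refine ⟨fun y => integrable_Gk μ hμ y, fun φ y hφ hc => ?_⟩
  have h := main_id μ hμ (hc.toSchwartzMap hφ) y
  simp_rw [psi_apply] at h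
  exact h

end

end Pool.Agent.E8helper9.LC
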